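import Pool.Agent.H20.ABCR.SHI1

set_option autoImplicit false

namespace Pool.Agent.H20.ABCR
open Finset MTA Filter

/-- powers of `log` are small -/
theorem shi_log_pow (K : ℕ) (s e : ℝ) (hs : 0 < s) (he : 0 < e) :
    ∀ᶠ x : ℝ in atTop, (Real.log x) ^ K ≤ e * x ^ s := by
  have h := isLittleO_log_rpow_rpow_atTop (K : ℝ) hs
  have h2 := h.def he
  filter_upwards [h2, eventually_ge_atTop (1 : ℝ)] with x hx hx1
  rw [Real.norm_of_nonneg (Real.rpow_nonneg (Real.log_nonneg hx1) _),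
    Real.norm_of_nonneg (Real.rpow_nonneg (by linarith) _), Real.rpow_natCast] at hx
  exact hx

theorem shi_tha {x : ℝ} (hx : 2 ≤ x) (s : ℕ) (hs : s ∈ PS x) :
    THa 1 x s 1 ≤ ((GoodL x).filter fun l => s ∣ l - 1).card * Real.log (8 * x) := by
  classical
  obtain ⟨a1, a2, a3⟩ := mem_PS (by linarith) hs
  have hlog : 0 ≤ Real.log (8 * x) := Real.log_nonneg (by linarith)
  have hh : ((((GoodL x).filter fun l => s ∣ l - 1).card : ℕ) : ℝ) * Real.log (8 * x) =
      ∑ _l ∈ (GoodL x).filter (fun l => s ∣ l - 1), Real.log (8 * x) := by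
    rw [Finset.sum_const, nsmul_eq_mul]
  rw [hh]
  unfold THa
  have key : ∀ p : ℕ, 2 ≤ p → p ≤ ⌊8 * ((1 : ℕ) : ℝ) * x⌋₊ + 1 →
      rho (Real.log (((p : ℝ) - 1) / (((1 : ℕ) : ℝ) * x))) ≠ 0 →
      x / 8 ≤ (p : ℝ) - 1 ∧ (p : ℝ) ≤ 8 * x := by
    intro p hp _ hr
    have hp2 : (2 : ℝ) ≤ p := by exact_mod_cast hp
    have h1 := shi_supp (x := x) (t := (p : ℝ) - 1) (by linarith) (by linarith) hr
    exact ⟨h1.1, by linarith [h1.2]⟩
  refine le_trans (le_of_eq (Finset.sum_filter_ne_zero _).symm) ?_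
  refine le_trans (Finset.sum_le_sum (g := fun _ => Real.log (8 * x)) ?_)
    (Finset.sum_le_sum_of_subset_of_nonneg ?_ fun _ _ _ => hlog)
  · intro p hp
    rw [mem_filter, mem_filter, mem_Icc] at hp
    have h1 := key p hp.1.1.1 hp.1.1.2 (right_ne_zero_of_mul hp.2)
    have hp2 : (2 : ℝ) ≤ p := by exact_mod_cast hp.1.1.1
    calc Real.log p * rho _ ≤ Real.log p * 1 :=
          mul_le_mul_of_nonneg_left (rho_le_one _) (Real.log_nonneg (by linarith))
      _ ≤ Real.log (8 * x) := by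
          rw [mul_one]
          exact Real.log_le_log (by linarith) h1.2
  · intro p hp
    rw [mem_filter, mem_filter, mem_Icc] at hp
    have h1 := key p hp.1.1.1 hp.1.1.2 (right_ne_zero_of_mul hp.2)
    have hd : s ∣ p - 1 := (Nat.modEq_iff_dvd' (by omega)).1 hp.1.2.2.symm
    rw [mem_filter, GoodL, mem_filter, mem_Icc]
    refine ⟨⟨⟨hp.1.1.1, ?_⟩, hp.1.2.1, h1.1, h1.2, s, a1, a2, a3, hd⟩, hd⟩
    have := hp.1.1.2
    rwa [Nat.cast_one, mul_one] at this

theorem shi_count (hL : S_LARGE) (hC : S_CHAR) (hT : S_THPSI) (hE : S_CHE) :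
    ∃ (c x0 : ℝ), 0 < c ∧ ∀ x : ℝ, x0 ≤ x → c * x / (Real.log x) ^ 3 ≤ (GoodL x).card := by
  classical
  obtain ⟨C, xa, k, hC0, ha⟩ := shi_emax hL hC hT
  obtain ⟨c2, xb, hc2, hb⟩ := shi_PS hE
  obtain ⟨c1, C1, hc1, hC1, hE⟩ := hE
  obtain ⟨xc, hE⟩ := hE 1 le_rfl
  have hev := shi_log_pow (k + 1) (1 / 20) (c1 * c2 / (6 * C)) (by norm_num) (by positivity)
  obtain ⟨xd, hd⟩ := eventually_atTop.1 (hev.and (eventually_ge_atTop (8 : ℝ)))
  refine ⟨c1 * c2 / 16, max (max xa xb) (max xc xd), by positivity, fun x hx => ?_⟩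
  simp only [max_le_iff] at hx
  obtain ⟨⟨hxa, hxb⟩, hxc, hxd⟩ := hx
  obtain ⟨hd1, hx8⟩ := hd x hxd
  have ha := ha x hxa
  have hb := hb x hxb
  have hE := (hE x hxc).1
  rw [Nat.cast_one, one_mul] at hE
  have hx0 : 0 < x := by linarith
  have hx1 : 1 ≤ x := by linarith
  have hl1 : 1 ≤ Real.log x := by
    rw [← Real.log_exp 1]
    exact Real.log_le_log (Real.exp_pos 1) (by linarith [Real.exp_one_lt_d9])
  have hl0 : 0 < Real.log x := by linarith
  have hl8 : Real.log (8 * x) ≤ 2 * Real.log x := by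
    rw [Real.log_mul (by norm_num) hx0.ne']
    have := Real.log_le_log (by norm_num) hx8
    linarith
  -- lower bound
  have h1 : ∀ s ∈ PS x, TH 1 x * (1 / (s.totient : ℝ)) - Emax 1 x s ≤ THa 1 x s 1 := by
    intro s hs
    obtain ⟨a1, a2, a3⟩ := mem_PS hx0.le hs
    have h2 := le_Emax 1 x s 1 a1.one_lt (Nat.coprime_one_left s)
    unfold EE at h2
    have h3 := (abs_le.1 h2).1
    have h4 : TH 1 x * (1 / (s.totient : ℝ)) = TH 1 x / s.totient := by ring
    linarith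
  have h2 := Finset.sum_le_sum h1
  rw [Finset.sum_sub_distrib, ← Finset.mul_sum] at h2
  have h3 : c1 * x * (c2 / Real.log x) ≤ TH 1 x * ∑ s ∈ PS x, 1 / (s.totient : ℝ) := by
    gcongr
    exact le_trans (by positivity) hE
  -- upper bound
  have h4 := Finset.sum_le_sum (fun s hs => shi_tha (x := x) (by linarith) s hs)
  rw [← Finset.sum_mul] at h4
  have h5 : ∑ s ∈ PS x, ((((GoodL x).filter fun l => s ∣ l - 1).card : ℕ) : ℝ) ≤
      (GoodL x).card * (2 * Real.log (8 * x)) := by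
    have h6 : ∑ s ∈ PS x, ((GoodL x).filter fun l => s ∣ l - 1).card =
        ∑ l ∈ GoodL x, ((PS x).filter fun s => s ∣ l - 1).card :=
      Finset.sum_card_bipartiteAbove_eq_sum_card_bipartiteBelow (fun s l => s ∣ l - 1)
    have h7 : ∑ s ∈ PS x, ((((GoodL x).filter fun l => s ∣ l - 1).card : ℕ) : ℝ) =
        ∑ l ∈ GoodL x, ((((PS x).filter fun s => s ∣ l - 1).card : ℕ) : ℝ) := by
      exact_mod_cast h6
    rw [h7]
    calc ∑ l ∈ GoodL x, ((((PS x).filter fun s => s ∣ l - 1).card : ℕ) : ℝ)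
        ≤ ∑ l ∈ GoodL x, 2 * Real.log (8 * x) := by
          refine Finset.sum_le_sum fun l hl => ?_
          rw [GoodL, mem_filter, mem_Icc] at hl
          have hl2 : 2 ≤ l := hl.1.1
          refine (shi_om (l - 1) (by omega) _ (fun s hs => ?_)).trans ?_
          · rw [mem_filter] at hs
            exact ⟨(mem_PS hx0.le hs.1).1, hs.2⟩
          · refine mul_le_mul_of_nonneg_left ?_ (by norm_num)
            refine Real.log_le_log (by exact_mod_cast (by omega : 0 < l - 1)) ?_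
            calc ((l - 1 : ℕ) : ℝ) ≤ l := by exact_mod_cast Nat.sub_le l 1
              _ ≤ 8 * x := hl.2.2.2.1
      _ = _ := by rw [Finset.sum_const, nsmul_eq_mul]
  have hlog8 : 0 ≤ Real.log (8 * x) := Real.log_nonneg (by linarith)
  have h6 : ∑ s ∈ PS x, THa 1 x s 1 ≤ (GoodL x).card * (8 * (Real.log x) ^ 2) := by
    refine h4.trans ?_
    calc _ ≤ ((GoodL x).card * (2 * Real.log (8 * x))) * Real.log (8 * x) := by gcongr
      _ ≤ ((GoodL x).card * (2 * (2 * Real.log x))) * (2 * Real.log x) := by gcongr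
      _ = _ := by ring
  -- error
  have h7 : (C * (Real.log x) ^ k * (x ^ (8 / 9 : ℝ) + x ^ (19 / 20 : ℝ)) + C * x ^ (4 / 5 : ℝ)) *
      Real.log x ≤ c1 * c2 / 2 * x := by
    have e1 : x ^ (8 / 9 : ℝ) ≤ x ^ (19 / 20 : ℝ) :=
      Real.rpow_le_rpow_of_exponent_le hx1 (by norm_num)
    have e2 : x ^ (4 / 5 : ℝ) ≤ x ^ (19 / 20 : ℝ) :=
      Real.rpow_le_rpow_of_exponent_le hx1 (by norm_num)
    have e3 : (1 : ℝ) ≤ (Real.log x) ^ k := one_le_pow₀ hl1
    calc (C * (Real.log x) ^ k * (x ^ (8 / 9 : ℝ) + x ^ (19 / 20 : ℝ)) + C * x ^ (4 / 5 : ℝ)) *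
        Real.log x ≤ (C * (Real.log x) ^ k * (x ^ (19 / 20 : ℝ) + x ^ (19 / 20 : ℝ)) +
          C * (Real.log x) ^ k * x ^ (19 / 20 : ℝ)) * Real.log x := by
          gcongr
          calc C = C * 1 := (mul_one C).symm
            _ ≤ _ := by gcongr
      _ = 3 * C * (Real.log x) ^ (k + 1) * x ^ (19 / 20 : ℝ) := by ring
      _ ≤ 3 * C * (c1 * c2 / (6 * C) * x ^ (1 / 20 : ℝ)) * x ^ (19 / 20 : ℝ) := by gcongr
      _ = c1 * c2 / 2 * (x ^ (1 / 20 : ℝ) * x ^ (19 / 20 : ℝ)) := by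
          field_simp; ring
      _ = _ := by
          rw [← Real.rpow_add hx0]; norm_num
  have h8 : c1 * x * (c2 / Real.log x) * Real.log x = c1 * c2 * x := by
    field_simp
  have h9 : c1 * c2 / 2 * x ≤ (GoodL x).card * (8 * (Real.log x) ^ 2) * Real.log x := by
    have e1 : c1 * x * (c2 / Real.log x) - (C * (Real.log x) ^ k * (x ^ (8 / 9 : ℝ) +
        x ^ (19 / 20 : ℝ)) + C * x ^ (4 / 5 : ℝ)) ≤ (GoodL x).card * (8 * (Real.log x) ^ 2) := by
      linarith
    have e2 := mul_le_mul_of_nonneg_right e1 hl0.le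
    rw [sub_mul, h8] at e2
    linarith
  rw [div_le_iff₀ (by positivity)]
  have h10 : ((GoodL x).card : ℝ) * (8 * (Real.log x) ^ 2) * Real.log x =
      8 * ((GoodL x).card * (Real.log x) ^ 3) := by ring
  rw [h10] at h9
  linarith

end Pool.Agent.H20.ABCR
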