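import Pool.Agent.H98.ABCR.Stmts
import Pool.Agent.H20.ABCR.SHI2

set_option autoImplicit false

namespace Pool.Agent.H20.ABCR
open Finset MTA Filter

/-- the part of `n` prime to all primes below `k0` -/
def rough (k0 n : ℕ) : ℕ := ∏ p ∈ n.primeFactors.filter (fun p => ¬ p < k0), p ^ n.factorization p

/-- the part of `n` with primes below `k0` -/
def smooth (k0 n : ℕ) : ℕ := ∏ p ∈ n.primeFactors.filter (fun p => p < k0), p ^ n.factorization p

theorem smooth_mul_rough (k0 n : ℕ) (hn : n ≠ 0) : smooth k0 n * rough k0 n = n := by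
  unfold smooth rough
  rw [Finset.prod_filter_mul_prod_filter_not]
  exact Nat.prod_factorization_pow_eq_self hn

theorem rough_prime (k0 n q : ℕ) (hq : q.Prime) (h : q ∣ rough k0 n) : k0 ≤ q := by
  unfold rough at h
  rw [Prime.dvd_finsetProd_iff (Nat.prime_iff.1 hq)] at h
  obtain ⟨p, hp, hqp⟩ := h
  rw [mem_filter, not_lt] at hp
  have h1 := hq.dvd_of_dvd_pow hqp
  rw [(Nat.prime_dvd_prime_iff_eq hq (Nat.prime_of_mem_primeFactors hp.1)).1 h1]
  exact hp.2

theorem smooth_le (k0 n m : ℕ) (hm : m ≠ 0) (hnm : n ∣ m) (T : ℝ) (hT : 1 ≤ T)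
    (h : ∀ p < k0, p.Prime → ((p : ℝ) ^ m.factorization p) ≤ T) : (smooth k0 n : ℝ) ≤ T ^ k0 := by
  have hn : n ≠ 0 := by
    rintro rfl
    exact hm (Nat.eq_zero_of_zero_dvd hnm)
  unfold smooth
  push_cast
  have h1 : ∏ p ∈ n.primeFactors.filter (fun p => p < k0), ((p : ℝ) ^ n.factorization p) ≤
      ∏ _p ∈ n.primeFactors.filter (fun p => p < k0), T := by
    refine Finset.prod_le_prod (fun p _ => by positivity) fun p hp => ?_
    rw [mem_filter] at hp
    have hpp := Nat.prime_of_mem_primeFactors hp.1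
    refine le_trans ?_ (h p hp.2 hpp)
    refine pow_le_pow_right₀ (by exact_mod_cast hpp.one_le) ?_
    exact (Nat.factorization_le_iff_dvd hn hm).2 hnm p
  refine h1.trans ?_
  rw [Finset.prod_const]
  refine pow_le_pow_right₀ hT ?_
  calc (n.primeFactors.filter (fun p => p < k0)).card ≤ (range k0).card := by
        refine card_le_card fun p hp => ?_
        rw [mem_filter] at hp
        exact mem_range.2 hp.2
    _ = k0 := card_range k0

/-- few `l` for which `l - 1` is divisible by a high power of a small prime -/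
theorem shi_bad (y T : ℝ) (hy : 0 < y) (hT : 1 ≤ T) (p : ℕ) (hp : p.Prime) :
    (((GoodL y).filter fun l => T < (p : ℝ) ^ (l - 1).factorization p).card : ℝ) ≤ 8 * y / T := by
  classical
  have hex : ∃ a : ℕ, T < (p : ℝ) ^ a := by
    have : (1 : ℝ) < p := by exact_mod_cast hp.one_lt
    exact pow_unbounded_of_one_lt T this
  have hsub : ((GoodL y).filter fun l => T < (p : ℝ) ^ (l - 1).factorization p).card ≤
      ((Ioc 0 ⌊8 * y⌋₊).filter fun n => p ^ (Nat.find hex) ∣ n).card := by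
    refine Finset.card_le_card_of_injOn (fun l => l - 1) ?_ ?_
    · intro l hl
      rw [mem_coe, mem_filter, GoodL, mem_filter, mem_Icc] at hl
      rw [mem_coe, mem_filter, mem_Ioc]
      have e1 := hl.1.1.1
      have e2 := hl.1.1.2
      refine ⟨⟨show 0 < l - 1 by omega, show l - 1 ≤ ⌊8 * y⌋₊ by omega⟩, ?_⟩
      have h1 : Nat.find hex ≤ (l - 1).factorization p := Nat.find_min' hex hl.2
      exact (pow_dvd_pow p h1).trans (Nat.ordProj_dvd (l - 1) p)
    · intro l hl l' hl' h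
      rw [mem_coe, mem_filter, GoodL, mem_filter, mem_Icc] at hl hl'
      have h1 := hl.1.1.1
      have h2 := hl'.1.1.1
      simp only at h
      omega
  rw [Nat.Ioc_filter_dvd_card_eq_div] at hsub
  calc (((GoodL y).filter fun l => T < (p : ℝ) ^ (l - 1).factorization p).card : ℝ)
      ≤ ((⌊8 * y⌋₊ / p ^ (Nat.find hex) : ℕ) : ℝ) := by exact_mod_cast hsub
    _ ≤ (⌊8 * y⌋₊ : ℝ) / ((p ^ (Nat.find hex) : ℕ) : ℝ) := Nat.cast_div_le
    _ ≤ (8 * y) / T := by
        have h1 := Nat.floor_le (show 0 ≤ 8 * y by linarith)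
        have h2 := Nat.find_spec hex
        push_cast
        gcongr

end Pool.Agent.H20.ABCR

namespace Pool.Agent.H98.ABCR
open Finset Filter Pool.Agent.H20.ABCR

theorem shi_thm : S_SHI := by
  classical
  intro k0
  obtain ⟨c, x0, hc, hcount⟩ := shi_count shi_LARGE MTA.CHAR MTA.THPSI MTA.CHE
  have hk : (0 : ℝ) < 1 / (100 * ((k0 : ℝ) + 1)) := by positivity
  have ev1 := shi_log_pow 3 (1 / (100 * ((k0 : ℝ) + 1))) (c / (16 * ((k0 : ℝ) + 1))) hk
    (by positivity)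
  have ev2 := shi_log_pow 3 (1 / 900) (c / 16) (by norm_num) (by positivity)
  have ev3 := shi_rpow_ev (1 / 200) (by norm_num) 8
  obtain ⟨y0, hy0⟩ := eventually_atTop.1 ((ev1.and ev2).and (ev3.and
    ((eventually_ge_atTop x0).and (eventually_ge_atTop (3 : ℝ)))))
  refine ⟨y0, fun y hy => ?_⟩
  obtain ⟨⟨h1, h2⟩, h3, h4, h5⟩ := hy0 y hy
  have hcount := hcount y h4
  have hy1 : 1 ≤ y := by linarith
  have hyp : 0 < y := by linarith
  have hl1 : 0 < Real.log y := Real.log_pos (by linarith)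
  set T := y ^ (1 / (100 * ((k0 : ℝ) + 1))) with hT
  have hT1 : 1 ≤ T := Real.one_le_rpow hy1 hk.le
  have hTk : T ^ k0 ≤ y ^ (1 / 100 : ℝ) := by
    calc T ^ k0 ≤ T ^ (k0 + 1) := pow_le_pow_right₀ hT1 (Nat.le_succ _)
      _ = y ^ (1 / 100 : ℝ) := by
          rw [hT, ← Real.rpow_natCast, ← Real.rpow_mul hyp.le]
          congr 1
          push_cast
          field_simp
  -- remove the bad ones
  set G := (GoodL y).filter fun l => ∀ p < k0, p.Prime → ((p : ℝ) ^ (l - 1).factorization p) ≤ T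
    with hG
  have hGc : c / 2 * y / (Real.log y) ^ 3 ≤ (G.card : ℝ) := by
    have e1 : GoodL y ⊆ G ∪ (range k0).biUnion fun p => if p.Prime then
        (GoodL y).filter (fun l => T < (p : ℝ) ^ (l - 1).factorization p) else ∅ := by
      intro l hl
      rw [mem_union]
      by_cases hlG : l ∈ G
      · exact Or.inl hlG
      · right
        rw [hG, mem_filter, not_and] at hlG
        have := hlG hl
        push Not at this
        obtain ⟨p, hp, hpp, hlt⟩ := this
        rw [mem_biUnion]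
        refine ⟨p, mem_range.2 hp, ?_⟩
        rw [if_pos hpp, mem_filter]
        exact ⟨hl, hlt⟩
    have e2 := (card_le_card e1).trans ((card_union_le _ _).trans
      (Nat.add_le_add_left card_biUnion_le _))
    have e3 : ((GoodL y).card : ℝ) ≤ G.card + ∑ p ∈ range k0, ((if p.Prime then
        (GoodL y).filter (fun l => T < (p : ℝ) ^ (l - 1).factorization p) else ∅ :
          Finset ℕ).card : ℝ) := by exact_mod_cast e2
    have e4 : ∑ p ∈ range k0, ((if p.Prime then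
        (GoodL y).filter (fun l => T < (p : ℝ) ^ (l - 1).factorization p) else ∅ :
          Finset ℕ).card : ℝ) ≤ k0 * (8 * y / T) := by
      calc _ ≤ ∑ _p ∈ range k0, 8 * y / T := by
            refine Finset.sum_le_sum fun p _ => ?_
            split_ifs with hp
            · exact shi_bad y T hyp hT1 p hp
            · simp only [card_empty, Nat.cast_zero]
              positivity
        _ = _ := by rw [Finset.sum_const, nsmul_eq_mul, card_range]
    have e5 : (k0 : ℝ) * (8 * y / T) ≤ c / 2 * y / (Real.log y) ^ 3 := by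
      rw [mul_div_assoc', div_le_div_iff₀ (by positivity) (by positivity)]
      calc (k0 : ℝ) * (8 * y) * Real.log y ^ 3
          ≤ ((k0 : ℝ) + 1) * (8 * y) * (c / (16 * ((k0 : ℝ) + 1)) * T) := by
            gcongr
            linarith
        _ = _ := by field_simp; ring
    have e6 : c / 2 * y / (Real.log y) ^ 3 + c / 2 * y / (Real.log y) ^ 3 =
        c * y / (Real.log y) ^ 3 := by ring
    linarith
  -- the prime `s`
  have hs : ∀ l ∈ G, ∃ s : ℕ, s.Prime ∧ y ^ (1 / 9 : ℝ) < s ∧ (s : ℝ) ≤ y ^ (1 / 8 : ℝ) ∧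
      s ∣ l - 1 := by
    intro l hl
    rw [hG, mem_filter, GoodL, mem_filter] at hl
    exact hl.1.2.2.2.2
  choose! s hs using hs
  have hl : ∀ l ∈ G, l.Prime ∧ y / 8 ≤ (l : ℝ) - 1 ∧ (l : ℝ) ≤ 8 * y ∧ 2 ≤ l ∧
      ∀ p < k0, p.Prime → ((p : ℝ) ^ (l - 1).factorization p) ≤ T := by
    intro l hl
    rw [hG, mem_filter, GoodL, mem_filter, mem_Icc] at hl
    exact ⟨hl.1.2.1, hl.1.2.2.1, hl.1.2.2.2.1, hl.1.1.1, hl.2⟩
  have hcast : ∀ l ∈ G, ((l - 1 : ℕ) : ℝ) = (l : ℝ) - 1 := by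
    intro l hlG
    have := (hl l hlG).2.2.2.1
    rw [Nat.cast_sub (by omega)]
    simp
  have hn : ∀ l ∈ G, s l * ((l - 1) / s l) = l - 1 := fun l hlG =>
    Nat.mul_div_cancel' (hs l hlG).2.2.2
  have hn0 : ∀ l ∈ G, (l - 1) / s l ≠ 0 := by
    intro l hlG h0
    have h6 := hn l hlG
    rw [h0, mul_zero] at h6
    have := (hl l hlG).2.2.2.1
    omega
  have hnr : ∀ l ∈ G, (s l : ℝ) * (((l - 1) / s l : ℕ) : ℝ) = (l : ℝ) - 1 := by
    intro l hlG
    rw [← hcast l hlG]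
    exact_mod_cast hn l hlG
  have hup : ∀ l ∈ G, (rough k0 ((l - 1) / s l) : ℝ) ≤ 8 * y ^ (8 / 9 : ℝ) := by
    intro l hlG
    have e1 : rough k0 ((l - 1) / s l) ≤ (l - 1) / s l :=
      Nat.le_of_dvd (Nat.pos_of_ne_zero (hn0 l hlG))
        ⟨smooth k0 ((l - 1) / s l), by rw [mul_comm]; exact (smooth_mul_rough k0 _ (hn0 l hlG)).symm⟩
    have e2 : (rough k0 ((l - 1) / s l) : ℝ) ≤ (((l - 1) / s l : ℕ) : ℝ) := by exact_mod_cast e1
    refine e2.trans ?_
    have e3 := hnr l hlG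
    obtain ⟨a1, a2, a3, a4⟩ := hs l hlG
    have e4 := (hl l hlG).2.2.1
    have e5 : y ^ (1 / 9 : ℝ) * (((l - 1) / s l : ℕ) : ℝ) ≤ 8 * y := by
      calc y ^ (1 / 9 : ℝ) * (((l - 1) / s l : ℕ) : ℝ) ≤ s l * (((l - 1) / s l : ℕ) : ℝ) := by
            gcongr
        _ ≤ 8 * y := by rw [e3]; linarith
    have e6 : 8 * y = y ^ (1 / 9 : ℝ) * (8 * y ^ (8 / 9 : ℝ)) := by
      have : y ^ (1 / 9 : ℝ) * y ^ (8 / 9 : ℝ) = y := by
        rw [← Real.rpow_add hyp]; norm_num
      linear_combination (-8 : ℝ) * this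
    rw [e6] at e5
    exact le_of_mul_le_mul_left e5 (by positivity)
  have hlo : ∀ l ∈ G, y ^ (86 / 100 : ℝ) ≤ (rough k0 ((l - 1) / s l) : ℝ) := by
    intro l hlG
    have e1 := smooth_mul_rough k0 _ (hn0 l hlG)
    have e2 := smooth_le k0 ((l - 1) / s l) (l - 1) (by have := (hl l hlG).2.2.2.1; omega)
      (Nat.div_dvd_of_dvd (hs l hlG).2.2.2) T hT1 (hl l hlG).2.2.2.2
    have e3 : (smooth k0 ((l - 1) / s l) : ℝ) * (rough k0 ((l - 1) / s l) : ℝ) =
        (((l - 1) / s l : ℕ) : ℝ) := by exact_mod_cast e1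
    obtain ⟨a1, a2, a3, a4⟩ := hs l hlG
    have e4 : y / 8 ≤ y ^ (1 / 8 : ℝ) * (y ^ (1 / 100 : ℝ) * (rough k0 ((l - 1) / s l) : ℝ)) := by
      calc y / 8 ≤ (l : ℝ) - 1 := (hl l hlG).2.1
        _ = s l * ((smooth k0 ((l - 1) / s l) : ℝ) * (rough k0 ((l - 1) / s l) : ℝ)) := by
            rw [e3]; exact (hnr l hlG).symm
        _ ≤ _ := by
            gcongr
            exact e2.trans hTk
    have e5 : y = y ^ (1 / 8 : ℝ) * (y ^ (1 / 100 : ℝ) * (y ^ (1 / 200 : ℝ) * y ^ (86 / 100 : ℝ))) := by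
      rw [← Real.rpow_add hyp, ← Real.rpow_add hyp, ← Real.rpow_add hyp]
      norm_num
    have e6 : y ^ (1 / 8 : ℝ) * (y ^ (1 / 100 : ℝ) * (8 * y ^ (86 / 100 : ℝ))) ≤
        y ^ (1 / 8 : ℝ) * (y ^ (1 / 100 : ℝ) * (8 * (rough k0 ((l - 1) / s l) : ℝ))) := by
      calc _ ≤ y ^ (1 / 8 : ℝ) * (y ^ (1 / 100 : ℝ) * (y ^ (1 / 200 : ℝ) * y ^ (86 / 100 : ℝ))) := by
            gcongr
        _ = y := e5.symm
        _ ≤ 8 * (y ^ (1 / 8 : ℝ) * (y ^ (1 / 100 : ℝ) * (rough k0 ((l - 1) / s l) : ℝ))) := by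
            linarith
        _ = _ := by ring
    have e7 := le_of_mul_le_mul_left (le_of_mul_le_mul_left e6 (by positivity)) (by positivity)
    linarith
  -- pigeonhole
  have hpig : ∃ e ∈ Icc 1 ⌊8 * y ^ (8 / 9 : ℝ)⌋₊, y ^ (11 / 100 : ℝ) ≤
      ((G.filter fun l => rough k0 ((l - 1) / s l) = e).card : ℝ) := by
    refine Finset.exists_le_card_fiber_of_nsmul_le_card_of_maps_to (fun l hlG => ?_) ?_ ?_
    · rw [mem_Icc]
      refine ⟨?_, Nat.le_floor (hup l hlG)⟩
      have e1 := hlo l hlG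
      have e2 : (0 : ℝ) < (rough k0 ((l - 1) / s l) : ℝ) := lt_of_lt_of_le (by positivity) e1
      exact_mod_cast e2
    · rw [nonempty_Icc]
      refine Nat.le_floor ?_
      have := Real.one_le_rpow hy1 (show (0 : ℝ) ≤ 8 / 9 by norm_num)
      push_cast
      linarith
    · rw [nsmul_eq_mul, Nat.card_Icc, Nat.add_sub_cancel]
      have e1 := Nat.floor_le (show 0 ≤ 8 * y ^ (8 / 9 : ℝ) by positivity)
      refine le_trans ?_ hGc
      rw [le_div_iff₀ (by positivity)]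
      calc (⌊8 * y ^ (8 / 9 : ℝ)⌋₊ : ℝ) * y ^ (11 / 100 : ℝ) * Real.log y ^ 3
          ≤ (8 * y ^ (8 / 9 : ℝ)) * y ^ (11 / 100 : ℝ) * (c / 16 * y ^ (1 / 900 : ℝ)) := by gcongr
        _ = c / 2 * (y ^ (8 / 9 : ℝ) * (y ^ (11 / 100 : ℝ) * y ^ (1 / 900 : ℝ))) := by ring
        _ = c / 2 * y := by
            rw [← Real.rpow_add hyp, ← Real.rpow_add hyp]; norm_num
  obtain ⟨e, -, he⟩ := hpig
  have hne : (G.filter fun l => rough k0 ((l - 1) / s l) = e).Nonempty := by
    rw [← Finset.card_pos]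
    have : (0 : ℝ) < ((G.filter fun l => rough k0 ((l - 1) / s l) = e).card : ℝ) :=
      lt_of_lt_of_le (by positivity) he
    exact_mod_cast this
  obtain ⟨l0, hl0⟩ := hne
  rw [mem_filter] at hl0
  refine ⟨e, fun q hq hqe => ?_, ?_, G.filter fun l => rough k0 ((l - 1) / s l) = e, he,
    fun l hlL => ?_⟩
  · rw [← hl0.2] at hqe
    exact rough_prime _ _ _ hq hqe
  · rw [← hl0.2]; exact hlo l0 hl0.1
  · rw [mem_filter] at hlL
    obtain ⟨b1, b2, b3, b4, b5⟩ := hl l hlL.1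
    refine ⟨b1, ?_, by linarith, b3⟩
    rw [← hlL.2]
    refine Dvd.dvd.trans ⟨smooth k0 ((l - 1) / s l), ?_⟩ (Nat.div_dvd_of_dvd (hs l hlL.1).2.2.2)
    rw [mul_comm]
    exact (smooth_mul_rough k0 _ (hn0 l hlL.1)).symm

end Pool.Agent.H98.ABCR
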