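import Pool.Agent.H28.MTA.LARGE
import Pool.Agent.H22.MTA.VAU
import Pool.Agent.H4.MTA.TI
import Pool.Agent.H66.MTA.TII
import Pool.Agent.H70.MTA.TIB
import Pool.Agent.H70.MTA.LS
import Pool.Agent.H70.MTA.LSA
import Pool.Agent.H65.MTA.LSG
import Pool.Agent.H65.MTA.GAU
import Pool.Agent.H22.MTA.RHOF
import Pool.Agent.H92.MTA.FOUR
import Pool.Agent.H65.MTA.TAU2
import Pool.Agent.H92.MTA.CHAR
import Pool.Agent.H85.MTA.THPSI
import Pool.Agent.H47.MTA.CHE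

/-! # Many primes `l` such that `l - 1` has a prime factor slightly below `l ^ (1 / 8)` -/

set_option autoImplicit false

namespace Pool.Agent.H20.ABCR
open Finset MTA Filter

theorem shi_LARGE : S_LARGE :=
  MTA.LARGE MTA.VAU MTA.TI (MTA.TIIthm (MTA.TIB (MTA.LS (MTA.LSA MTA.LSG) MTA.GAU))
    (MTA.RHOF MTA.FOUR) MTA.TAU2)

theorem shi_card (q : ℕ) [NeZero q] :
    (Fintype.card (DirichletCharacter ℂ q) : ℝ) = q.totient := by
  rw [← Nat.card_eq_fintype_card, DirichletCharacter.card_eq_totient_of_hasEnoughRootsOfUnity ℂ q]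

theorem shi_prim (s : ℕ) (hs : s.Prime) (χ : DirichletCharacter ℂ s) (h : χ ≠ 1) :
    χ.IsPrimitive := by
  have h1 := DirichletCharacter.conductor_dvd_level χ
  rcases (Nat.dvd_prime hs).1 h1 with h2 | h2
  · haveI : NeZero s := ⟨hs.ne_zero⟩
    exact absurd ((DirichletCharacter.eq_one_iff_conductor_eq_one (χ := χ)).2 h2) h
  · exact h2

/-- for a prime modulus, the sum over nontrivial characters is at most the sum over primitive
characters -/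
theorem shi_nps (s : ℕ) (hs : s.Prime) (F G : DirichletCharacter ℂ s → ℝ) (K : ℝ) (hK : 0 ≤ K)
    (hG : ∀ χ, 0 ≤ G χ) (h : ∀ χ, F χ ≤ G χ + K) : nps s F ≤ prs s G + s.totient * K := by
  classical
  have : NeZero s := ⟨hs.ne_zero⟩
  unfold nps prs
  rw [← shi_card s, ← nsmul_eq_mul, ← Finset.card_univ, ← Finset.sum_const,
    ← Finset.sum_add_distrib]
  apply Finset.sum_le_sum
  intro χ _
  by_cases h1 : χ = 1
  · rw [if_pos h1]
    split_ifs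
    · exact add_nonneg (hG χ) hK
    · linarith
  · rw [if_neg h1, if_pos (shi_prim s hs χ h1)]
    exact h χ

/-- the primes `s` in `(x ^ (1 / 9), x ^ (1 / 8)]` -/
noncomputable def PS (x : ℝ) : Finset ℕ :=
  (Icc 1 ⌊x ^ (1 / 8 : ℝ)⌋₊).filter fun s => s.Prime ∧ x ^ (1 / 9 : ℝ) < s

theorem mem_PS {x : ℝ} (hx : 0 ≤ x) {s : ℕ} (h : s ∈ PS x) :
    s.Prime ∧ x ^ (1 / 9 : ℝ) < s ∧ (s : ℝ) ≤ x ^ (1 / 8 : ℝ) := by
  rw [PS, mem_filter, mem_Icc] at h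
  refine ⟨h.2.1, h.2.2, ?_⟩
  exact (Nat.le_floor_iff (by positivity)).1 h.1.2

theorem shi_emax (hL : S_LARGE) (hC : S_CHAR) (hT : S_THPSI) : ∃ (C x0 : ℝ) (k : ℕ), 0 < C ∧
    ∀ x : ℝ, x0 ≤ x → ∑ s ∈ PS x, Emax 1 x s ≤
      C * (Real.log x) ^ k * (x ^ (8 / 9 : ℝ) + x ^ (19 / 20 : ℝ)) + C * x ^ (4 / 5 : ℝ) := by
  obtain ⟨C4, k, hC4, hL⟩ := hL
  obtain ⟨xC, hC⟩ := hC 1 le_rfl
  obtain ⟨C1, xT, hC1, hT⟩ := hT 1 le_rfl
  refine ⟨max C4 C1, max (max xC xT) 2, k, lt_max_of_lt_left hC4, fun x hx => ?_⟩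
  simp only [max_le_iff] at hx
  obtain ⟨⟨hxC, hxT⟩, hx2⟩ := hx
  have hx1 : 1 ≤ x := by linarith
  have hx0 : 0 < x := by linarith
  have hexp : x ^ (1 / 8 : ℝ) ≤ x ^ (1 / 5 : ℝ) :=
    Real.rpow_le_rpow_of_exponent_le hx1 (by norm_num)
  have hlog : 0 ≤ Real.log x := Real.log_nonneg hx1
  have s1 : ∀ s ∈ PS x, Emax 1 x s ≤ 1 / (s.totient : ℝ) * prs s (fun χ => ‖psiR x χ‖) +
      C1 * x ^ (3 / 5 : ℝ) := by
    intro s hs
    obtain ⟨h1, h2, h3⟩ := mem_PS hx0.le hs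
    have : NeZero s := ⟨h1.ne_zero⟩
    have ht : 0 < (s.totient : ℝ) := by exact_mod_cast Nat.totient_pos.2 h1.pos
    refine (hC x s hxC h1.one_le (h3.trans hexp)).trans ?_
    have e1 := shi_nps s h1 (fun χ => ‖thetaR 1 x χ‖) (fun χ => ‖psiR x χ‖) (C1 * x ^ (3 / 5 : ℝ))
      (by positivity) (fun χ => norm_nonneg _) (fun χ => by
        have f1 := hT x s χ hxT
        rw [Nat.cast_one, one_mul] at f1
        have f2 : ‖thetaR 1 x χ‖ = ‖psiR x χ + (thetaR 1 x χ - psiR x χ)‖ := by congr 1; ring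
        rw [f2]
        exact (norm_add_le _ _).trans (by linarith))
    calc 1 / (s.totient : ℝ) * nps s (fun χ => ‖thetaR 1 x χ‖)
        ≤ 1 / (s.totient : ℝ) * (prs s (fun χ => ‖psiR x χ‖) +
          s.totient * (C1 * x ^ (3 / 5 : ℝ))) :=
          mul_le_mul_of_nonneg_left e1 (by positivity)
      _ = _ := by field_simp
  have s2 : ∑ s ∈ PS x, 1 / (s.totient : ℝ) * prs s (fun χ => ‖psiR x χ‖) ≤
      C4 * (Real.log x) ^ k * (x / x ^ (1 / 9 : ℝ) + x ^ (19 / 20 : ℝ)) := by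
    refine (Finset.sum_le_sum_of_subset_of_nonneg ?_ ?_).trans
      (hL x (x ^ (1 / 9 : ℝ)) hx2 (Real.one_le_rpow hx1 (by norm_num)))
    · intro s hs
      rw [PS, mem_filter, mem_Icc] at hs
      rw [mem_filter, mem_Icc]
      exact ⟨⟨hs.1.1, hs.1.2.trans (Nat.floor_le_floor hexp)⟩, hs.2.2⟩
    · intro r _ _
      refine mul_nonneg (by positivity) ?_
      unfold prs
      refine Finset.sum_nonneg fun χ _ => ?_
      split_ifs
      · exact norm_nonneg _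
      · exact le_rfl
  have s3 : x / x ^ (1 / 9 : ℝ) = x ^ (8 / 9 : ℝ) := by
    rw [div_eq_iff (by positivity), ← Real.rpow_add hx0]
    norm_num
  rw [s3] at s2
  refine (Finset.sum_le_sum s1).trans ?_
  rw [Finset.sum_add_distrib, Finset.sum_const, nsmul_eq_mul]
  have s4 : ((PS x).card : ℝ) ≤ x ^ (1 / 5 : ℝ) := by
    have h1 : (PS x).card ≤ ⌊x ^ (1 / 8 : ℝ)⌋₊ := by
      refine (Finset.card_filter_le _ _).trans ?_
      simp
    calc ((PS x).card : ℝ) ≤ (⌊x ^ (1 / 8 : ℝ)⌋₊ : ℝ) := by exact_mod_cast h1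
      _ ≤ x ^ (1 / 8 : ℝ) := Nat.floor_le (by positivity)
      _ ≤ _ := hexp
  have s5 : ((PS x).card : ℝ) * (C1 * x ^ (3 / 5 : ℝ)) ≤ max C4 C1 * x ^ (4 / 5 : ℝ) := by
    calc ((PS x).card : ℝ) * (C1 * x ^ (3 / 5 : ℝ)) ≤ x ^ (1 / 5 : ℝ) * (max C4 C1 * x ^ (3 / 5 : ℝ)) := by
          gcongr
          exact le_max_right _ _
      _ = max C4 C1 * (x ^ (1 / 5 : ℝ) * x ^ (3 / 5 : ℝ)) := by ring
      _ = _ := by
          rw [← Real.rpow_add hx0]; norm_num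
  have s6 : C4 * (Real.log x) ^ k * (x ^ (8 / 9 : ℝ) + x ^ (19 / 20 : ℝ)) ≤
      max C4 C1 * (Real.log x) ^ k * (x ^ (8 / 9 : ℝ) + x ^ (19 / 20 : ℝ)) := by
    gcongr
    exact le_max_left _ _
  linarith

end Pool.Agent.H20.ABCR
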