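import Pool.Agent.H20.ABCR.SHI0
import Pool.Agent.H20.MT.Rho

set_option autoImplicit false

namespace Pool.Agent.H20.ABCR
open Finset MTA Filter

/-- the support of the weight -/
theorem shi_supp {x t : ℝ} (hx : 0 < x) (ht : 0 < t) (h : rho (Real.log (t / (((1 : ℕ) : ℝ) * x))) ≠ 0) :
    x / 8 ≤ t ∧ t ≤ 15 / 2 * x := by
  rw [Nat.cast_one, one_mul] at h
  have h1 : |Real.log (t / x)| < 2 := by
    by_contra h2
    exact h (rho_zero (not_lt.1 h2))
  rw [abs_lt] at h1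
  have hpos : 0 < t / x := by positivity
  have h3 : Real.exp (-2) < t / x := by
    rw [← Real.exp_log hpos]
    exact Real.exp_lt_exp.2 h1.1
  have h4 : t / x < Real.exp 2 := by
    rw [← Real.exp_log hpos]
    exact Real.exp_lt_exp.2 h1.2
  have h5 : Real.exp 2 ≤ 15 / 2 := by
    have h6 : Real.exp 2 = Real.exp 1 * Real.exp 1 := by rw [← Real.exp_add]; norm_num
    have h7 := Real.exp_one_lt_d9
    rw [h6]
    nlinarith [Real.exp_pos 1]
  have h8 : (1 : ℝ) / 8 ≤ Real.exp (-2) := by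
    rw [Real.exp_neg, one_div]
    exact inv_anti₀ (Real.exp_pos 2) (by linarith)
  rw [lt_div_iff₀ hx] at h3
  rw [div_lt_iff₀ hx] at h4
  constructor
  · nlinarith
  · nlinarith

theorem shi_rpow_ev (a : ℝ) (ha : 0 < a) (c : ℝ) : ∀ᶠ x : ℝ in atTop, c ≤ x ^ a :=
  (tendsto_rpow_atTop ha).eventually_ge_atTop c

theorem shi_PS (hE : S_CHE) : ∃ (c x0 : ℝ), 0 < c ∧ ∀ x : ℝ, x0 ≤ x →
    c / Real.log x ≤ ∑ s ∈ PS x, 1 / (s.totient : ℝ) := by
  obtain ⟨c1, C1, hc1, hC1, hE⟩ := hE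
  obtain ⟨x1, hE⟩ := hE 1 le_rfl
  have e1 := shi_rpow_ev (1 / 8) (by norm_num) (max (8 * x1 + 1) 2)
  have e2 := shi_rpow_ev (1 / 8 - 1 / 9) (by norm_num) 128
  obtain ⟨x0, hx0⟩ := eventually_atTop.1 ((e1.and e2).and (eventually_ge_atTop (3 : ℝ)))
  refine ⟨c1 / 16, x0, by positivity, fun x hx => ?_⟩
  obtain ⟨⟨h1, h2⟩, h3⟩ := hx0 x hx
  rw [max_le_iff] at h1
  set z := x ^ (1 / 8 : ℝ) with hz
  have hx1 : 1 ≤ x := by linarith
  have hxp : 0 < x := by linarith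
  have hlog : 0 < Real.log x := Real.log_pos (by linarith)
  have hzx : z ≤ x := by
    conv_rhs => rw [← Real.rpow_one x]
    exact Real.rpow_le_rpow_of_exponent_le hx1 (by norm_num)
  have hz9 : 128 * x ^ (1 / 9 : ℝ) ≤ z := by
    have h4 : z = x ^ (1 / 8 - 1 / 9 : ℝ) * x ^ (1 / 9 : ℝ) := by
      rw [← Real.rpow_add hxp, hz]; norm_num
    rw [h4]
    exact mul_le_mul_of_nonneg_right h2 (by positivity)
  have hz9' : 1 ≤ x ^ (1 / 9 : ℝ) := Real.one_le_rpow hx1 (by norm_num)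
  have h5 := (hE ((z - 1) / 8) (by linarith)).1
  have h6 : TH 1 ((z - 1) / 8) ≤ (PS x).card * Real.log x := by
    have hh : ((PS x).card : ℝ) * Real.log x = ∑ _s ∈ PS x, Real.log x := by
      rw [Finset.sum_const, nsmul_eq_mul]
    rw [hh]
    unfold TH
    refine le_trans (le_of_eq (Finset.sum_filter_ne_zero _).symm) ?_
    refine le_trans (Finset.sum_le_sum (g := fun _ => Real.log x) ?_)
      (Finset.sum_le_sum_of_subset_of_nonneg ?_ fun _ _ _ => hlog.le)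
    · intro p hp
      rw [mem_filter, mem_filter, mem_Icc] at hp
      have hp1 : (p : ℝ) ≤ z := by
        have h7 : (p : ℝ) ≤ (⌊8 * ((1 : ℕ) : ℝ) * ((z - 1) / 8)⌋₊ : ℝ) + 1 := by
          exact_mod_cast hp.1.1.2
        have h8 := Nat.floor_le (show 0 ≤ 8 * ((1 : ℕ) : ℝ) * ((z - 1) / 8) by
          push_cast; linarith)
        rw [Nat.cast_one] at h7 h8
        linarith
      have hp2 : (1 : ℝ) ≤ p := by exact_mod_cast (by omega : 1 ≤ p)
      calc Real.log p * rho _ ≤ Real.log p * 1 :=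
            mul_le_mul_of_nonneg_left (rho_le_one _) (Real.log_nonneg hp2)
        _ ≤ Real.log x := by
            rw [mul_one]
            exact Real.log_le_log (by linarith) (hp1.trans hzx)
    · intro p hp
      rw [mem_filter, mem_filter, mem_Icc] at hp
      have hp1 : (p : ℝ) ≤ z := by
        have h7 : (p : ℝ) ≤ (⌊8 * ((1 : ℕ) : ℝ) * ((z - 1) / 8)⌋₊ : ℝ) + 1 := by
          exact_mod_cast hp.1.1.2
        have h8 := Nat.floor_le (show 0 ≤ 8 * ((1 : ℕ) : ℝ) * ((z - 1) / 8) by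
          push_cast; linarith)
        rw [Nat.cast_one] at h7 h8
        linarith
      have hp2 : (2 : ℝ) ≤ p := by exact_mod_cast hp.1.1.1
      have h9 := (shi_supp (x := (z - 1) / 8) (t := (p : ℝ) - 1) (by linarith) (by linarith)
        (right_ne_zero_of_mul hp.2)).1
      rw [PS, mem_filter, mem_Icc]
      refine ⟨⟨by omega, Nat.le_floor hp1⟩, hp.1.2, ?_⟩
      linarith
  have h7 : ∀ s ∈ PS x, 1 / z ≤ 1 / (s.totient : ℝ) := by
    intro s hs
    obtain ⟨a1, a2, a3⟩ := mem_PS hxp.le hs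
    have ht : 0 < (s.totient : ℝ) := by exact_mod_cast Nat.totient_pos.2 a1.pos
    refine one_div_le_one_div_of_le ht ?_
    have : (s.totient : ℝ) ≤ s := by exact_mod_cast Nat.totient_le s
    linarith
  have h8 := Finset.sum_le_sum h7
  rw [Finset.sum_const, nsmul_eq_mul] at h8
  refine le_trans ?_ h8
  rw [div_le_iff₀ hlog]
  have h9 : c1 * ((z - 1) / 8) ≤ (PS x).card * Real.log x := by
    have := h5.trans h6
    rwa [Nat.cast_one, one_mul] at this
  have hz0 : 0 < z := by linarith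
  have hz16 : z / 16 ≤ (z - 1) / 8 := by linarith
  calc c1 / 16 = (c1 * (z / 16)) * (1 / z) := by field_simp
    _ ≤ (c1 * ((z - 1) / 8)) * (1 / z) := by gcongr
    _ ≤ ((PS x).card * Real.log x) * (1 / z) := by gcongr
    _ = _ := by ring

open Classical in
/-- primes `l` near `x` such that `l - 1` has a prime factor in `(x ^ (1 / 9), x ^ (1 / 8)]` -/
noncomputable def GoodL (x : ℝ) : Finset ℕ :=
  (Icc 2 (⌊8 * x⌋₊ + 1)).filter fun l => l.Prime ∧ x / 8 ≤ (l : ℝ) - 1 ∧ (l : ℝ) ≤ 8 * x ∧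
    ∃ s : ℕ, s.Prime ∧ x ^ (1 / 9 : ℝ) < s ∧ (s : ℝ) ≤ x ^ (1 / 8 : ℝ) ∧ s ∣ l - 1

theorem shi_om (n : ℕ) (hn : n ≠ 0) (S : Finset ℕ) (hS : ∀ s ∈ S, s.Prime ∧ s ∣ n) :
    (S.card : ℝ) ≤ 2 * Real.log n := by
  have h1 : S ⊆ n.primeFactors := fun s hs =>
    Nat.mem_primeFactors.2 ⟨(hS s hs).1, (hS s hs).2, hn⟩
  have h2 : 2 ^ S.card ≤ n := by
    calc 2 ^ S.card ≤ 2 ^ n.primeFactors.card := Nat.pow_le_pow_right (by norm_num) (card_le_card h1)
      _ ≤ ∏ p ∈ n.primeFactors, p := by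
          apply Finset.pow_card_le_prod
          intro p hp
          exact (Nat.prime_of_mem_primeFactors hp).two_le
      _ ≤ n := Nat.le_of_dvd (Nat.pos_of_ne_zero hn) (Nat.prod_primeFactors_dvd n)
  have h3 : (2 : ℝ) ^ S.card ≤ n := by exact_mod_cast h2
  have h4 := Real.log_le_log (by positivity) h3
  rw [Real.log_pow] at h4
  have h5 := Real.log_two_gt_d9
  have h6 : (0 : ℝ) ≤ S.card := Nat.cast_nonneg _
  nlinarith

end Pool.Agent.H20.ABCR
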